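import Mathlib
import Pool.Agent.K3h42.OC.PMain
import Pool.Agent.H905R2.OppD

/-! # MP_77d073_nt: the product of the forms along one path of the diagonal group

Let `n ≥ 3` and let `ω 0, ω 1, ω 2, ...` be any path in the hyperplane of the vectors with sum `0`,
with bounded steps. For independent linear forms `L i` the box `|L i (p)| ≤ R e^{-ω k i}` contains,
for some fixed `R`, a nonzero integer point for every `k` (Minkowski). `LowerLimit ω L ν` says that
the lower limit of the product `|F L p|` over the nonzero integer points of these boxes, as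
`k → ∞`, is at least `ν` for every `R`. This is much weaker than `|F L p| ≥ ν` for all nonzero
integer points: only the points near one path of the `(n - 1)`-dimensional diagonal group are
looked at, and only the lower limit. `Modified ω L ν` says that `L = u M` where `M` satisfies
Oppenheim's conclusion, `|F M| ≥ ν` at the nonzero integer points, `u i i = 1`, and `u i j ≠ 0` for
`i ≠ j` only if `ω k i - ω k j → -∞`.

1. `Modified ω L ν` implies `LowerLimit ω L ν`.
2. If `LowerLimit ω L ν` holds, `ν > 0`, then the systems `e^{ω k i} L i ∘ γ` have limits for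
   `k → ∞`, and if one of them satisfies Oppenheim's conclusion then all of them do and
   `Modified ω L ν` holds.
3. For all `V, ν > 0`: Oppenheim's conclusion holds for all systems with determinant `± V` and
   `|F| ≥ ν` if and only if `LowerLimit ω L ν` implies `Modified ω L ν` for all systems with
   determinant `± V`.
4. Oppenheim's conjecture for `n` holds if and only if `LowerLimit ω L ν` implies `Modified ω L ν`
   for all systems and all `ν > 0`.
5. If `ω k i - ω k j` tends to `-∞` for no pair of indices, then `Modified ω L ν` holds if and only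
   if `L` is independent, satisfies Oppenheim's conclusion and `|F L p| ≥ ν` at the nonzero integer
   points; and Oppenheim's conjecture for `n` holds if and only if every system `L` with
   `LowerLimit ω L ν` for some `ν > 0` satisfies Oppenheim's conclusion.
6. Let the path return infinitely often to a bounded distance of the ray with the coordinates
   `n - |I|` in `I` and `- |I|` outside `I`, `I` neither empty nor everything. Then
   `LowerLimit ω L ν` is equivalent to `Modified ω L ν`, `ν > 0`, for all systems which are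
   arithmetic on `I`: the intersection `W` of the hyperplanes `L i = 0`, `i ∈ I`, is preserved by
   a rational matrix with irreducible characteristic polynomial, and `|I|` is prime to `n` or the
   rational matrices preserving `W` commute; or `n` is prime and `W` is preserved by a rational
   matrix which is not scalar; or `I` has one element `i` and `L i` is proportional to a form with
   coefficients in a real number field of degree at most `n`; or the complement of `I` has one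
   element and the line `W` contains a nonzero vector with coordinates in a real number field of
   degree at most `n`.
7. If every `L i` vanishes at some nonzero integer point (as in the systems of Littlewood's
   conjecture), then `Modified ω L ν` holds for no `ν > 0`. So then Oppenheim's conjecture implies
   that `LowerLimit ω L ν` holds for no `ν > 0`, and this holds without Oppenheim's conjecture if
   `L` is arithmetic on `I` and the path returns to the ray of `I` as in 6. -/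

set_option autoImplicit false

open Filter Topology

namespace Pool.Agent.Results.MP_77d073_nt.AlongPaths

variable {n : ℕ}

/-- the product of the linear forms with the coefficients `L i` at the integer point `p` -/
def F (L : Fin n → Fin n → ℝ) (p : Fin n → ℤ) : ℝ := ∏ i : Fin n, ∑ j : Fin n, L i j * (p j : ℝ)

/-- the product is at least `ν` in absolute value at the nonzero integer points -/
def AtLeast (L : Fin n → Fin n → ℝ) (ν : ℝ) : Prop := ∀ p : Fin n → ℤ, p ≠ 0 → ν ≤ |F L p|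

/-- Oppenheim's conclusion: there is an irreducible RS-matrix whose invariant planes are the
hyperplanes `L i = 0`. -/
def HasMatrix (L : Fin n → Fin n → ℝ) : Prop :=
  ∃ A : Matrix (Fin n) (Fin n) ℤ,
    A.det = 1 ∧
    Irreducible (A.charpoly.map (Int.castRingHom ℚ)) ∧
    (∀ z : ℂ, Polynomial.aeval z A.charpoly = 0 → z.im = 0) ∧
    ∀ i : Fin n, ∀ x : Fin n → ℝ, ∑ j, L i j * x j = 0 →
      ∑ j, L i j * ((A.map (Int.cast : ℤ → ℝ)).mulVec x) j = 0

/-- Oppenheim's conjecture for `n` -/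
def Oppenheim (n : ℕ) : Prop :=
  ∀ L : Fin n → Fin n → ℝ, LinearIndependent ℝ L → (∃ ν : ℝ, 0 < ν ∧ AtLeast L ν) → HasMatrix L

/-- a path with bounded steps in the hyperplane of the vectors with sum `0` -/
def IsPath (ω : ℕ → Fin n → ℝ) : Prop :=
  (∀ k, ∑ i, ω k i = 0) ∧ ∃ C : ℝ, ∀ k i, |ω (k + 1) i - ω k i| ≤ C

/-- The lower limit of the absolute value of the product over the nonzero integer points `p` with
`|L i (p)| ≤ R e^{-ω k i}` for all `i` is at least `ν` for `k → ∞`, for every `R`. -/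
def LowerLimit (ω : ℕ → Fin n → ℝ) (L : Fin n → Fin n → ℝ) (ν : ℝ) : Prop :=
  ∀ ν' : ℝ, ν' < ν → ∀ R : ℝ, ∃ K : ℕ, ∀ k, K ≤ k → ∀ p : Fin n → ℤ, p ≠ 0 →
    (∀ i, Real.exp (ω k i) * |∑ j, L i j * (p j : ℝ)| ≤ R) → ν' ≤ |F L p|

/-- The limits of the systems `e^{ω k i} • (L i ∘ γ)`, `γ` integral of determinant `±1`, for
`k → ∞`. -/
def LimitsAlong (ω : ℕ → Fin n → ℝ) (L : Fin n → Fin n → ℝ) : Set (Fin n → Fin n → ℝ) :=
  {L' | ∃ (κ : ℕ → ℕ) (γ : ℕ → Matrix (Fin n) (Fin n) ℤ), Tendsto κ atTop atTop ∧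
    (∀ m, |(γ m).det| = 1) ∧
    Tendsto (fun m i j => Real.exp (ω (κ m) i) * ∑ k, L i k * (γ m k j : ℝ)) atTop (𝓝 L')}

/-- `L` is the modification `u M` of a system `M` which satisfies Oppenheim's conclusion and has
product at least `ν`, by a matrix `u` with diagonal `1` and entries outside the diagonal only where
`ω k i - ω k j` tends to `-∞`. -/
def Modified (ω : ℕ → Fin n → ℝ) (L : Fin n → Fin n → ℝ) (ν : ℝ) : Prop :=
  ∃ u M : Fin n → Fin n → ℝ, LinearIndependent ℝ M ∧ AtLeast M ν ∧ HasMatrix M ∧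
    (∀ i j, L i j = ∑ k, u i k * M k j) ∧ (∀ i, u i i = 1) ∧
    ∀ i j, i ≠ j → u i j ≠ 0 → Tendsto (fun k => ω k i - ω k j) atTop atBot

/-- The path returns infinitely often to a bounded distance of the ray with the coordinates
`n - |I|` in `I` and `-|I|` outside `I`. -/
def Visits (ω : ℕ → Fin n → ℝ) (I : Finset (Fin n)) : Prop :=
  ∃ C : ℝ, ∀ K : ℕ, ∃ k, K ≤ k ∧ ∃ t : ℝ, 0 ≤ t ∧
    ∀ i, |ω k i - t * (if i ∈ I then (n : ℝ) - I.card else -(I.card : ℝ))| ≤ C

/-- The rational matrix `B` maps the intersection of the hyperplanes `L i = 0`, `i ∈ I`, to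
itself. -/
def Preserves (L : Fin n → Fin n → ℝ) (I : Finset (Fin n)) (B : Matrix (Fin n) (Fin n) ℚ) : Prop :=
  ∀ x : Fin n → ℝ, (∀ i ∈ I, ∑ j, L i j * x j = 0) →
    ∀ i ∈ I, ∑ j, L i j * ((B.map (Rat.cast : ℚ → ℝ)).mulVec x) j = 0

/-- the system is arithmetic on `I` -/
def Arithmetic (L : Fin n → Fin n → ℝ) (I : Finset (Fin n)) : Prop :=
  (∃ A : Matrix (Fin n) (Fin n) ℚ, Preserves L I A ∧ Irreducible A.charpoly ∧
    (Nat.Coprime I.card n ∨
      ∀ B C : Matrix (Fin n) (Fin n) ℚ, Preserves L I B → Preserves L I C → B * C = C * B)) ∨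
  (n.Prime ∧ ∃ A : Matrix (Fin n) (Fin n) ℚ, Preserves L I A ∧
    ∀ a : ℚ, A ≠ a • (1 : Matrix (Fin n) (Fin n) ℚ)) ∨
  (∃ (i : Fin n) (s : ℝ) (K : IntermediateField ℚ ℝ), I = {i} ∧ s ≠ 0 ∧ FiniteDimensional ℚ K ∧
    Module.finrank ℚ K ≤ n ∧ ∀ j, s * L i j ∈ K) ∨
  (∃ (i : Fin n) (w : Fin n → ℝ) (K : IntermediateField ℚ ℝ), I = Finset.univ.erase i ∧ w ≠ 0 ∧
    FiniteDimensional ℚ K ∧ Module.finrank ℚ K ≤ n ∧ (∀ j, w j ∈ K) ∧
    ∀ i', i' ≠ i → ∑ j, L i' j * w j = 0)

lemma indep_of_det {L : Fin n → Fin n → ℝ} (h : (Matrix.of L).det ≠ 0) :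
    LinearIndependent ℝ L :=
  Matrix.linearIndependent_rows_of_det_ne_zero h

lemma isPath_iff {ω : ℕ → Fin n → ℝ} (hω : IsPath ω) : Pool.Agent.K3h42.OC.IsPath ω :=
  ⟨hω.1, hω.2⟩

lemma lowerLimit_iff {ω : ℕ → Fin n → ℝ} {L : Fin n → Fin n → ℝ} {ν : ℝ} :
    LowerLimit ω L ν ↔ Pool.Agent.K3h42.OC.LowP ω (Matrix.of L) ν := Iff.rfl

lemma atLeast_iff {L : Fin n → Fin n → ℝ} {ν : ℝ} :
    AtLeast L ν ↔ H715R2.HasNu (Matrix.of L) ν := Iff.rfl

lemma propInt_of_hasMatrix (hn : 3 ≤ n) {L : Fin n → Fin n → ℝ} (hL : (Matrix.of L).det ≠ 0)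
    {ν : ℝ} (hν : 0 < ν) (hF : AtLeast L ν) (h : HasMatrix L) : H715R2.PropInt (Matrix.of L) := by
  obtain ⟨A, -, hA2, -, hA4⟩ := h
  exact Pool.Agent.Y327.propInt_of_opp hn hL hν hF hA2 hA4

lemma hasMatrix_of_propInt (hn : 3 ≤ n) {L : Fin n → Fin n → ℝ} (hL : (Matrix.of L).det ≠ 0)
    {ν : ℝ} (hν : 0 < ν) (hF : AtLeast L ν) (h : H715R2.PropInt (Matrix.of L)) : HasMatrix L :=
  Pool.Agent.H905R2.Opp.opp_of_propInt (by omega) (indep_of_det hL) ⟨ν, hν, hF⟩ h

lemma limitsAlong_iff {ω : ℕ → Fin n → ℝ} {L L' : Fin n → Fin n → ℝ} :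
    L' ∈ LimitsAlong ω L ↔ Matrix.of L' ∈ Pool.Agent.K3h42.OC.LimP ω (Matrix.of L) := by
  have h1 : ∀ (κ : ℕ → ℕ) (γ : ℕ → Matrix (Fin n) (Fin n) ℤ),
      (fun m i j => Real.exp (ω (κ m) i) * ∑ k, L i k * (γ m k j : ℝ)) =
      (fun m => (Pool.Agent.K3h42.OC.Ex (ω (κ m)) * Matrix.of L * H715R2.zR (γ m) :
        Fin n → Fin n → ℝ)) := by
    intro κ γ
    funext m i j
    unfold Pool.Agent.K3h42.OC.Ex
    rw [Matrix.mul_assoc, Matrix.diagonal_mul, Matrix.mul_apply]
    rfl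
  constructor
  · rintro ⟨κ, γ, hκ, hγ, hlim⟩
    rw [h1] at hlim
    exact ⟨κ, γ, hκ, fun m => Int.isUnit_iff_abs_eq.2 (hγ m), hlim⟩
  · rintro ⟨κ, γ, hκ, hγ, hlim⟩
    refine ⟨κ, γ, hκ, fun m => Int.isUnit_iff_abs_eq.1 (hγ m), ?_⟩
    rw [h1]
    exact hlim

lemma mod_of_modified (hn : 3 ≤ n) {ω : ℕ → Fin n → ℝ} {L : Fin n → Fin n → ℝ} {ν : ℝ}
    (hν : 0 < ν) (h : Modified ω L ν) : Pool.Agent.K3h42.OC.Mod ω (Matrix.of L) ν := by
  obtain ⟨u, M, hM, hF, hA, hLu, hu1, hu⟩ := h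
  have hdet := Pool.Agent.H905R2.Opp.det_ne hM
  refine ⟨Matrix.of u, Matrix.of M, propInt_of_hasMatrix hn hdet hν hF hA, hdet, hF, ?_, hu1, hu⟩
  ext i j
  rw [Matrix.mul_apply]
  exact hLu i j

lemma modified_of_mod (hn : 3 ≤ n) {ω : ℕ → Fin n → ℝ} {L : Fin n → Fin n → ℝ} {ν : ℝ}
    (hν : 0 < ν) (h : Pool.Agent.K3h42.OC.Mod ω (Matrix.of L) ν) : Modified ω L ν := by
  obtain ⟨u, M, hP, hdet, hF, hLu, hu1, hu⟩ := h
  refine ⟨u, M, indep_of_det hdet, hF, hasMatrix_of_propInt hn hdet hν hF hP, ?_, hu1, hu⟩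
  intro i j
  have h1 := congrFun (congrFun hLu i) j
  rw [Matrix.mul_apply] at h1
  exact h1

lemma visits_vis {ω : ℕ → Fin n → ℝ} {I : Finset (Fin n)} (h : Visits ω I) :
    Pool.Agent.K3h42.OC.Vis ω I := by
  obtain ⟨C, hC⟩ := h
  refine ⟨C, frequently_atTop.2 fun K => ?_⟩
  obtain ⟨k, hk, h⟩ := hC K
  exact ⟨k, hk, h⟩

/-- the first part -/
lemma part_one {ω : ℕ → Fin n → ℝ} (hω : IsPath ω) {L : Fin n → Fin n → ℝ} {ν : ℝ}
    (h : Modified ω L ν) : LinearIndependent ℝ L ∧ LowerLimit ω L ν := by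
  obtain ⟨u, M, hM, hF, -, hLu, hu1, hu⟩ := h
  have hdet := Pool.Agent.H905R2.Opp.det_ne hM
  have h1 : Matrix.of L = Matrix.of u * Matrix.of M := by
    ext i j
    rw [Matrix.mul_apply]
    exact hLu i j
  constructor
  · apply indep_of_det
    rw [h1, Matrix.det_mul, Pool.Agent.K3h42.OC.det_u (u := Matrix.of u) hu1 hu, one_mul]
    exact hdet
  · rw [lowerLimit_iff, h1]
    exact Pool.Agent.K3h42.OC.lowP_of_factor (isPath_iff hω) hu1 hu hF

/-- the second part -/
lemma part_two (hn : 3 ≤ n) {ω : ℕ → Fin n → ℝ} (hω : IsPath ω) {L : Fin n → Fin n → ℝ}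
    (hL : (Matrix.of L).det ≠ 0) {ν : ℝ} (hν : 0 < ν) (h : LowerLimit ω L ν) :
    (LimitsAlong ω L).Nonempty ∧
      (∀ L' ∈ LimitsAlong ω L, (Matrix.of L').det ≠ 0 ∧ |(Matrix.of L').det| = |(Matrix.of L).det| ∧
        AtLeast L' ν) ∧
      (∀ L' ∈ LimitsAlong ω L, HasMatrix L' → Modified ω L ν) ∧
      (Modified ω L ν → ∀ L' ∈ LimitsAlong ω L, HasMatrix L') := by
  have hω' := isPath_iff hω
  have hlim : ∀ L' ∈ LimitsAlong ω L, (Matrix.of L').det ≠ 0 ∧
      |(Matrix.of L').det| = |(Matrix.of L).det| ∧ AtLeast L' ν := by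
    intro L' hL'
    have h1 := limitsAlong_iff.1 hL'
    have h2 := Pool.Agent.K3h42.OC.LimP_det hω' h1
    refine ⟨?_, h2, Pool.Agent.K3h42.OC.LimP_nu hω' h h1⟩
    rw [← abs_ne_zero, h2, abs_ne_zero]
    exact hL
  refine ⟨?_, hlim, ?_, ?_⟩
  · obtain ⟨g', hg'⟩ := Pool.Agent.K3h42.OC.LimP_nonempty (by omega) hω' hL hν h
    exact ⟨g', limitsAlong_iff.2 hg'⟩
  · intro L' hL' hA
    obtain ⟨h1, -, h2⟩ := hlim L' hL'
    exact modified_of_mod hn hν (Pool.Agent.K3h42.OC.mod_of_limit hn hω' hL hν h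
      (limitsAlong_iff.1 hL') (propInt_of_hasMatrix hn h1 hν h2 hA))
  · intro hM L' hL'
    obtain ⟨h1, -, h2⟩ := hlim L' hL'
    exact hasMatrix_of_propInt hn h1 hν h2 (Pool.Agent.K3h42.OC.propInt_of_mod hn hω' hν
      (mod_of_modified hn hν hM) (limitsAlong_iff.1 hL'))

lemma hasMatrix_of_modified (hn : 3 ≤ n) {ω : ℕ → Fin n → ℝ} (hω : IsPath ω)
    {L : Fin n → Fin n → ℝ} (hL : (Matrix.of L).det ≠ 0) {ν : ℝ} (hν : 0 < ν)
    (hF : AtLeast L ν) (h : Modified ω L ν) : HasMatrix L :=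
  hasMatrix_of_propInt hn hL hν hF (Pool.Agent.K3h42.OC.propInt_of_mod_self hn (isPath_iff hω)
    hν hF (mod_of_modified hn hν h))

lemma lowerLimit_of_atLeast {ω : ℕ → Fin n → ℝ} {L : Fin n → Fin n → ℝ} {ν : ℝ}
    (hF : AtLeast L ν) : LowerLimit ω L ν :=
  Pool.Agent.K3h42.OC.lowP_of_hasNu (g := Matrix.of L) hF

/-- the sixth part -/
lemma part_six (hn : 3 ≤ n) {ω : ℕ → Fin n → ℝ} (hω : IsPath ω) {I : Finset (Fin n)}
    (hI0 : I.Nonempty) (hI1 : I ≠ Finset.univ) (hV : Visits ω I) {L : Fin n → Fin n → ℝ}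
    (hL : (Matrix.of L).det ≠ 0) {ν : ℝ} (hν : 0 < ν) (hA : Arithmetic L I)
    (h : LowerLimit ω L ν) : Modified ω L ν := by
  have hω' := isPath_iff hω
  have hV' := visits_vis hV
  apply modified_of_mod hn hν
  rcases hA with ⟨A, hA, hirr, hcond⟩ | ⟨hp, A, hA, hAs⟩ | ⟨i, s, K, rfl, hs, hfin, hK, hmem⟩ |
    ⟨i, w, K, rfl, hw0, hfin, hK, hwK, hw⟩
  · exact Pool.Agent.K3h42.OC.mod_of_pres hn hω' A hirr (Matrix.of L) hL hν h I hI1 hI0 hA hcond hV'
  · exact Pool.Agent.K3h42.OC.mod_of_prime hn hp hω' A hAs (Matrix.of L) hL hν h I hI1 hI0 hA hV'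
  · exact Pool.Agent.K3h42.OC.mod_of_form hn hω' (Matrix.of L) hL hν h K hfin hK i s hs hmem hV'
  · exact Pool.Agent.K3h42.OC.mod_of_point hn hω' (Matrix.of L) hL hν h K hfin hK i w hw0 hwK hw hV'

/-- the seventh part -/
lemma part_seven (hn : 3 ≤ n) {ω : ℕ → Fin n → ℝ} {L : Fin n → Fin n → ℝ}
    (hL : ∀ i, ∃ p : Fin n → ℤ, p ≠ 0 ∧ ∑ j, L i j * (p j : ℝ) = 0) {ν : ℝ} (hν : 0 < ν) :
    ¬ Modified ω L ν := by
  rintro ⟨u, M, -, hF, -, hLu, hu1, hu⟩
  have h1 : ∀ᶠ k in atTop, ∀ i j : Fin n, i ≠ j → u i j ≠ 0 → ω k i - ω k j < 0 := by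
    rw [eventually_all]
    intro i
    rw [eventually_all]
    intro j
    by_cases h : i ≠ j ∧ u i j ≠ 0
    · filter_upwards [(hu i j h.1 h.2).eventually_lt_atBot 0] with k hk _ _ using hk
    · exact Eventually.of_forall fun k h2 h3 => absurd ⟨h2, h3⟩ h
  obtain ⟨k, hk⟩ := h1.exists
  have : Nonempty (Fin n) := ⟨⟨0, by omega⟩⟩
  obtain ⟨i, hi⟩ := Finite.exists_max (ω k)
  have hrow : ∀ j, L i j = M i j := by
    intro j
    rw [hLu i j, Finset.sum_eq_single i]
    · rw [hu1, one_mul]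
    · intro l _ hl
      by_contra hcon
      have h2 := hk i l (Ne.symm hl) (left_ne_zero_of_mul hcon)
      have h3 := hi l
      linarith
    · exact fun h => absurd (Finset.mem_univ i) h
  obtain ⟨p, hp, hp0⟩ := hL i
  have h2 := hF p hp
  have h3 : F M p = 0 := by
    unfold F
    refine Finset.prod_eq_zero (Finset.mem_univ i) ?_
    rw [← hp0]
    exact Finset.sum_congr rfl fun j _ => by rw [hrow]
  rw [h3, abs_zero] at h2
  exact absurd h2 (not_le.2 hν)

theorem result (n : ℕ) (hn : 3 ≤ n) (ω : ℕ → Fin n → ℝ) (hω : IsPath ω) :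
    (∀ (L : Fin n → Fin n → ℝ) (ν : ℝ), Modified ω L ν →
      LinearIndependent ℝ L ∧ LowerLimit ω L ν) ∧
    (∀ L : Fin n → Fin n → ℝ, LinearIndependent ℝ L → ∀ ν : ℝ, 0 < ν → LowerLimit ω L ν →
      (LimitsAlong ω L).Nonempty ∧
      (Modified ω L ν ↔ ∃ L' ∈ LimitsAlong ω L, HasMatrix L') ∧
      (Modified ω L ν ↔ ∀ L' ∈ LimitsAlong ω L, HasMatrix L')) ∧
    (∀ V ν : ℝ, 0 < V → 0 < ν →
      ((∀ M : Fin n → Fin n → ℝ, |(Matrix.of M).det| = V → AtLeast M ν → HasMatrix M) ↔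
        ∀ L : Fin n → Fin n → ℝ, |(Matrix.of L).det| = V → LowerLimit ω L ν →
          Modified ω L ν)) ∧
    (Oppenheim n ↔ ∀ L : Fin n → Fin n → ℝ, LinearIndependent ℝ L → ∀ ν : ℝ, 0 < ν →
      LowerLimit ω L ν → Modified ω L ν) ∧
    ((∀ i j, i ≠ j → ¬ Tendsto (fun k => ω k i - ω k j) atTop atBot) →
      (∀ (L : Fin n → Fin n → ℝ) (ν : ℝ), Modified ω L ν ↔
        LinearIndependent ℝ L ∧ AtLeast L ν ∧ HasMatrix L) ∧
      (Oppenheim n ↔ ∀ L : Fin n → Fin n → ℝ, LinearIndependent ℝ L →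
        (∃ ν : ℝ, 0 < ν ∧ LowerLimit ω L ν) → HasMatrix L)) ∧
    (∀ I : Finset (Fin n), I.Nonempty → I ≠ Finset.univ → Visits ω I →
      ∀ L : Fin n → Fin n → ℝ, LinearIndependent ℝ L → Arithmetic L I → ∀ ν : ℝ, 0 < ν →
        (LowerLimit ω L ν ↔ Modified ω L ν)) ∧
    (∀ L : Fin n → Fin n → ℝ, LinearIndependent ℝ L →
      (∀ i, ∃ p : Fin n → ℤ, p ≠ 0 ∧ ∑ j, L i j * (p j : ℝ) = 0) → ∀ ν : ℝ, 0 < ν →
        ¬ Modified ω L ν ∧ (Oppenheim n → ¬ LowerLimit ω L ν) ∧
        ∀ I : Finset (Fin n), I.Nonempty → I ≠ Finset.univ → Visits ω I → Arithmetic L I →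
          ¬ LowerLimit ω L ν) := by
  have hfour : Oppenheim n → ∀ L : Fin n → Fin n → ℝ, LinearIndependent ℝ L → ∀ ν : ℝ, 0 < ν →
      LowerLimit ω L ν → Modified ω L ν := by
    intro hO L hL ν hν h
    obtain ⟨⟨L', hL'⟩, h1, h2, -⟩ := part_two hn hω (Pool.Agent.H905R2.Opp.det_ne hL) hν h
    obtain ⟨h3, -, h4⟩ := h1 L' hL'
    exact h2 L' hL' (hO L' (indep_of_det h3) ⟨ν, hν, h4⟩)
  refine ⟨fun L ν h => part_one hω h, ?_, ?_, ⟨hfour, ?_⟩, ?_, ?_, ?_⟩
  · intro L hL ν hν h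
    obtain ⟨h0, -, h1, h2⟩ := part_two hn hω (Pool.Agent.H905R2.Opp.det_ne hL) hν h
    refine ⟨h0, ⟨fun h3 => ?_, fun ⟨L', hL', hA⟩ => h1 L' hL' hA⟩, ⟨h2, fun h3 => ?_⟩⟩
    · obtain ⟨L', hL'⟩ := h0
      exact ⟨L', hL', h2 h3 L' hL'⟩
    · obtain ⟨L', hL'⟩ := h0
      exact h1 L' hL' (h3 L' hL')
  · intro V ν hV hν
    constructor
    · intro hO L hL h
      have hdet : (Matrix.of L).det ≠ 0 := by
        rw [← abs_ne_zero, hL]
        exact hV.ne'
      obtain ⟨⟨L', hL'⟩, h1, h2, -⟩ := part_two hn hω hdet hν h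
      obtain ⟨-, h3, h4⟩ := h1 L' hL'
      exact h2 L' hL' (hO L' (h3.trans hL) h4)
    · intro h M hM hF
      have hdet : (Matrix.of M).det ≠ 0 := by
        rw [← abs_ne_zero, hM]
        exact hV.ne'
      exact hasMatrix_of_modified hn hω hdet hν hF (h M hM (lowerLimit_of_atLeast hF))
  · rintro h L hL ⟨ν, hν, hF⟩
    exact hasMatrix_of_modified hn hω (Pool.Agent.H905R2.Opp.det_ne hL) hν hF
      (h L hL ν hν (lowerLimit_of_atLeast hF))
  · intro hturn
    have hmod : ∀ (L : Fin n → Fin n → ℝ) (ν : ℝ), Modified ω L ν ↔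
        LinearIndependent ℝ L ∧ AtLeast L ν ∧ HasMatrix L := by
      intro L ν
      constructor
      · rintro ⟨u, M, hM, hF, hA, hLu, hu1, hu⟩
        have h1 : L = M := by
          funext i j
          rw [hLu i j, Finset.sum_eq_single i]
          · rw [hu1, one_mul]
          · intro l _ hl
            by_contra hcon
            exact hturn i l (Ne.symm hl) (hu i l (Ne.symm hl) (left_ne_zero_of_mul hcon))
          · exact fun h => absurd (Finset.mem_univ i) h
        rw [h1]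
        exact ⟨hM, hF, hA⟩
      · rintro ⟨hL, hF, hA⟩
        refine ⟨fun i j => if i = j then 1 else 0, L, hL, hF, hA, fun i j => ?_,
          fun i => if_pos rfl, fun i j hij h => absurd (if_neg hij) h⟩
        show L i j = ∑ k, (if i = k then (1 : ℝ) else 0) * L k j
        rw [Finset.sum_eq_single i]
        · rw [if_pos rfl, one_mul]
        · intro l _ hl
          rw [if_neg (Ne.symm hl), zero_mul]
        · exact fun h => absurd (Finset.mem_univ i) h
    refine ⟨hmod, ?_, ?_⟩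
    · rintro hO L hL ⟨ν, hν, h⟩
      exact ((hmod L ν).1 (hfour hO L hL ν hν h)).2.2
    · rintro h L hL ⟨ν, hν, hF⟩
      exact h L hL ⟨ν, hν, lowerLimit_of_atLeast hF⟩
  · intro I hI0 hI1 hV L hL hA ν hν
    exact ⟨part_six hn hω hI0 hI1 hV (Pool.Agent.H905R2.Opp.det_ne hL) hν hA,
      fun h => (part_one hω h).2⟩
  · intro L hL hvan ν hν
    refine ⟨part_seven hn hvan hν, fun hO h => part_seven hn hvan hν (hfour hO L hL ν hν h), ?_⟩
    intro I hI0 hI1 hV hA h
    exact part_seven hn hvan hν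
      (part_six hn hω hI0 hI1 hV (Pool.Agent.H905R2.Opp.det_ne hL) hν hA h)

end Pool.Agent.Results.MP_77d073_nt.AlongPaths
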