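import Mathlib
import Pool.Agent.K3h4.OC.Point
import Pool.Agent.H905R2.OppD

/-! # MP_77d073_nt: rational matrices which preserve an intersection of the hyperplanes

Let `n ≥ 3`, let `L 1, ..., L n` be independent linear forms with product bounded away from zero at
the nonzero integer points, and let `L'` be a limit of the systems `a i • (L i ∘ γ)` (`a` positive
of product one, `γ` integral of determinant `±1`); `L' = L` is allowed. For a set `I` of indices let
`W` be the intersection of the hyperplanes `L' i = 0`, `i ∈ I`.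

1. If `W` is preserved by a rational matrix with irreducible characteristic polynomial, and the
   number of elements of `I` is prime to `n` or the rational matrices preserving `W` commute, then
   Oppenheim's conclusion holds for `L`.
2. If the number of elements of `I` is prime to `n`, then every nonzero rational matrix which
   preserves `W` is invertible.
3. If `n` is prime, `I` is neither empty nor everything, and `W` is preserved by a rational matrix
   which is not scalar, then Oppenheim's conclusion holds for `L`. So a system with product bounded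
   away from zero satisfies Oppenheim's conclusion if and only if some proper intersection of the
   hyperplanes of some limit is preserved by a non-scalar rational matrix.
4. If all `L' i` with `i ≠ k`, for some index `k`, vanish at a nonzero vector whose coordinates lie
   in a real number field of degree at most `n`, then Oppenheim's conclusion holds for `L`. -/

set_option autoImplicit false

open Filter Topology

namespace Pool.Agent.Results.MP_77d073_nt.InvariantIntersections

variable {n : ℕ}

/-- the product of the linear forms with the coefficients `L i` is bounded away from zero at the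
nonzero integer points -/
def BoundedAway (L : Fin n → Fin n → ℝ) : Prop :=
  ∃ ν : ℝ, 0 < ν ∧ ∀ p : Fin n → ℤ, p ≠ 0 → ν ≤ |∏ i : Fin n, ∑ j : Fin n, L i j * (p j : ℝ)|

/-- Oppenheim's conclusion: there is an irreducible RS-matrix whose invariant planes are the
hyperplanes `L i = 0`. -/
def HasMatrix (L : Fin n → Fin n → ℝ) : Prop :=
  ∃ A : Matrix (Fin n) (Fin n) ℤ,
    A.det = 1 ∧
    Irreducible (A.charpoly.map (Int.castRingHom ℚ)) ∧
    (∀ z : ℂ, Polynomial.aeval z A.charpoly = 0 → z.im = 0) ∧
    ∀ i : Fin n, ∀ x : Fin n → ℝ, ∑ j, L i j * x j = 0 →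
      ∑ j, L i j * ((A.map (Int.cast : ℤ → ℝ)).mulVec x) j = 0

/-- The limits of the systems `a i • (L i ∘ γ)`, `a` positive of product one, `γ` integral of
determinant `±1`. -/
def Limits (L : Fin n → Fin n → ℝ) : Set (Fin n → Fin n → ℝ) :=
  closure {L' | ∃ (a : Fin n → ℝ) (γ : Matrix (Fin n) (Fin n) ℤ), (∀ i, 0 < a i) ∧
    ∏ i, a i = 1 ∧ |γ.det| = 1 ∧ ∀ i j, L' i j = a i * ∑ k, L i k * (γ k j : ℝ)}

/-- The rational matrix `B` maps the intersection of the hyperplanes `L i = 0`, `i ∈ I`, to
itself. -/
def Preserves (L : Fin n → Fin n → ℝ) (I : Finset (Fin n)) (B : Matrix (Fin n) (Fin n) ℚ) : Prop :=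
  ∀ x : Fin n → ℝ, (∀ i ∈ I, ∑ j, L i j * x j = 0) →
    ∀ i ∈ I, ∑ j, L i j * ((B.map (Rat.cast : ℚ → ℝ)).mulVec x) j = 0

lemma limits_eq (L : Fin n → Fin n → ℝ) (L' : Fin n → Fin n → ℝ) :
    L' ∈ Limits L ↔ Matrix.of L' ∈ closure (H715R2.Orb (Matrix.of L)) := by
  have h1 : {L' : Fin n → Fin n → ℝ | ∃ (a : Fin n → ℝ) (γ : Matrix (Fin n) (Fin n) ℤ),
      (∀ i, 0 < a i) ∧ ∏ i, a i = 1 ∧ |γ.det| = 1 ∧
      ∀ i j, L' i j = a i * ∑ k, L i k * (γ k j : ℝ)} =
      (H715R2.Orb (Matrix.of L) : Set (Fin n → Fin n → ℝ)) := by
    ext h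
    constructor
    · rintro ⟨a, γ, ha0, ha1, hγ, hh⟩
      refine ⟨a, γ, ha0, ha1, Int.isUnit_iff_abs_eq.2 hγ, ?_⟩
      funext i j
      rw [hh, Matrix.mul_assoc, Matrix.diagonal_mul, Matrix.mul_apply]
      rfl
    · rintro ⟨a, γ, ha0, ha1, hγ, hh⟩
      refine ⟨a, γ, ha0, ha1, Int.isUnit_iff_abs_eq.1 hγ, fun i j => ?_⟩
      rw [hh, Matrix.mul_assoc, Matrix.diagonal_mul, Matrix.mul_apply]
      rfl
  unfold Limits
  rw [h1]
  rfl

open Pool.Agent.K3h4.OC in
/-- the first part -/
lemma part_one (hn : 3 ≤ n) (L : Fin n → Fin n → ℝ) (hL : LinearIndependent ℝ L)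
    (hb : BoundedAway L) (L' : Fin n → Fin n → ℝ) (hL' : L' ∈ Limits L) (I : Finset (Fin n))
    (A : Matrix (Fin n) (Fin n) ℚ) (hA : Preserves L' I A) (hirr : Irreducible A.charpoly)
    (hcond : Nat.Coprime I.card n ∨
      ∀ B C : Matrix (Fin n) (Fin n) ℚ, Preserves L' I B → Preserves L' I C → B * C = C * B) :
    HasMatrix L := by
  have hdet := Pool.Agent.H905R2.Opp.det_ne hL
  obtain ⟨ν, hν, hF⟩ := hb
  have h1 := (limits_eq L L').1 hL'
  have hdet' : (Matrix.of L').det ≠ 0 := by
    rw [← abs_ne_zero, H715R2.abs_det_closure h1, abs_ne_zero]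
    exact hdet
  have hnu' : H715R2.HasNu (Matrix.of L') ν := H715R2.hasNu_closure hF h1
  obtain ⟨K, _, _, D, hDh, hDI⟩ := exists_blk (by omega) A hirr (Matrix.of L') hdet' ν hν hnu' I
    hA hcond
  have hne : I.Nonempty := by
    rw [Finset.nonempty_iff_ne_empty]
    rintro rfl
    rcases hcond with h | h
    · rw [Finset.card_empty, Nat.coprime_zero_left] at h
      omega
    · have h01 : (⟨0, by omega⟩ : Fin n) ≠ ⟨1, by omega⟩ := by
        intro h0
        simpa using congrArg Fin.val h0
      have h2 := h (Matrix.single ⟨0, by omega⟩ ⟨1, by omega⟩ 1)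
        (Matrix.single ⟨1, by omega⟩ ⟨0, by omega⟩ 1)
        (fun x _ i hi => absurd hi (Finset.notMem_empty i))
        (fun x _ i hi => absurd hi (Finset.notMem_empty i))
      rw [Matrix.single_mul_single_same, Matrix.single_mul_single_same] at h2
      have h3 := congrFun (congrFun h2 ⟨0, by omega⟩) ⟨0, by omega⟩
      rw [Matrix.single_apply_same, Matrix.single_apply_of_ne] at h3
      · norm_num at h3
      · rintro ⟨h4, -⟩
        exact h01 h4.symm
  have hP := propInt_of_blk hn D (by rw [hDI]; exact hne) (Matrix.of L) hdet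
    (by rw [hDh]; exact h1) ν hν hF
  exact Pool.Agent.H905R2.Opp.opp_of_propInt (by omega) hL ⟨ν, hν, hF⟩ hP

open Pool.Agent.K3h4.OC in
theorem result (n : ℕ) (hn : 3 ≤ n) (L : Fin n → Fin n → ℝ) (hL : LinearIndependent ℝ L)
    (hb : BoundedAway L) :
    (∀ L' ∈ Limits L, ∀ (I : Finset (Fin n)) (A : Matrix (Fin n) (Fin n) ℚ),
      Preserves L' I A → Irreducible A.charpoly →
      (Nat.Coprime I.card n ∨
        ∀ B C : Matrix (Fin n) (Fin n) ℚ, Preserves L' I B → Preserves L' I C → B * C = C * B) →
      HasMatrix L) ∧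
    (∀ L' ∈ Limits L, ∀ (I : Finset (Fin n)) (B : Matrix (Fin n) (Fin n) ℚ),
      Nat.Coprime I.card n → Preserves L' I B → B ≠ 0 → B.det ≠ 0) ∧
    (n.Prime → (HasMatrix L ↔ ∃ L' ∈ Limits L, ∃ I : Finset (Fin n), I.Nonempty ∧
      I ≠ Finset.univ ∧ ∃ A : Matrix (Fin n) (Fin n) ℚ, Preserves L' I A ∧
        ∀ a : ℚ, A ≠ a • (1 : Matrix (Fin n) (Fin n) ℚ))) ∧
    (∀ L' ∈ Limits L, ∀ (k : Fin n) (w : Fin n → ℝ) (K : IntermediateField ℚ ℝ),
      FiniteDimensional ℚ K → Module.finrank ℚ K ≤ n → w ≠ 0 → (∀ j, w j ∈ K) →
      (∀ i, i ≠ k → ∑ j, L' i j * w j = 0) → HasMatrix L) := by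
  classical
  have hdet := Pool.Agent.H905R2.Opp.det_ne hL
  obtain ⟨ν, hν, hF⟩ := id hb
  have hdet' : ∀ L' ∈ Limits L, (Matrix.of L').det ≠ 0 := by
    intro L' hL'
    rw [← abs_ne_zero, H715R2.abs_det_closure ((limits_eq L L').1 hL'), abs_ne_zero]
    exact hdet
  have hnu' : ∀ L' ∈ Limits L, H715R2.HasNu (Matrix.of L') ν := fun L' hL' =>
    H715R2.hasNu_closure hF ((limits_eq L L').1 hL')
  refine ⟨fun L' hL' I A hA hirr hcond => part_one hn L hL hb L' hL' I A hA hirr hcond, ?_, ?_, ?_⟩
  · intro L' hL' I B hco hB hB0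
    exact det_ne_zero_of_invariant (Matrix.of L') (hdet' L' hL') ν hν (hnu' L' hL') I hco B hB hB0
  · intro hp
    constructor
    · rintro ⟨A, hA1, hA2, hA3, hA4⟩
      refine ⟨L, (limits_eq L L).2 (subset_closure (H715R2.mem_orb_self _)), {⟨0, by omega⟩},
        Finset.singleton_nonempty _, ?_, A.map (Int.cast : ℤ → ℚ), ?_, ?_⟩
      · intro h
        have h1 := congrArg Finset.card h
        rw [Finset.card_singleton, Finset.card_univ, Fintype.card_fin] at h1
        omega
      · intro x hx i hi
        rw [Finset.mem_singleton] at hi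
        have h1 : (A.map (Int.cast : ℤ → ℚ)).map (Rat.cast : ℚ → ℝ) = A.map (Int.cast : ℤ → ℝ) := by
          ext i j
          simp [Matrix.map_apply]
        rw [h1]
        exact hA4 i x (hx i (Finset.mem_singleton.2 hi))
      · intro a ha
        have h1 : (A.map (Int.cast : ℤ → ℚ)).charpoly = A.charpoly.map (Int.castRingHom ℚ) :=
          Matrix.charpoly_map A (Int.castRingHom ℚ)
        have h2 : Polynomial.aeval a (A.map (Int.cast : ℤ → ℚ)).charpoly = 0 := by
          rw [Polynomial.coe_aeval_eq_eval, Matrix.eval_charpoly, ha]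
          have h3 : (Matrix.scalar (Fin n)) a - a • (1 : Matrix (Fin n) (Fin n) ℚ) = 0 := by
            rw [Matrix.scalar_apply, ← Matrix.smul_one_eq_diagonal, sub_self]
          have hne : Nonempty (Fin n) := ⟨⟨0, by omega⟩⟩
          rw [h3, Matrix.det_zero]
        rw [h1, Polynomial.coe_aeval_eq_eval] at h2
        have h4 := Polynomial.degree_eq_one_of_irreducible_of_root hA2 h2
        have h5 : (A.charpoly.map (Int.castRingHom ℚ)).natDegree = n := by
          rw [(Matrix.charpoly_monic A).natDegree_map, Matrix.charpoly_natDegree_eq_dim,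
            Fintype.card_fin]
        have h6 : (A.charpoly.map (Int.castRingHom ℚ)).natDegree = 1 :=
          Polynomial.natDegree_eq_of_degree_eq_some (by exact_mod_cast h4)
        omega
    · rintro ⟨L', hL', I, hI0, hI1, A, hA, hAs⟩
      have hco : Nat.Coprime I.card n := by
        rw [Nat.coprime_comm, hp.coprime_iff_not_dvd]
        intro hdvd
        have h1 : 0 < I.card := hI0.card_pos
        have h2 := Nat.le_of_dvd h1 hdvd
        apply hI1
        refine Finset.eq_univ_of_card I ?_
        have h3 := Finset.card_le_univ I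
        rw [Fintype.card_fin] at h3 ⊢
        omega
      have hpol : ∀ Q : Polynomial ℚ, Preserves L' I (Polynomial.aeval A Q) := by
        intro Q
        induction Q using Polynomial.induction_on with
        | C a =>
          intro x hx i hi
          have h1 : ((Polynomial.aeval A (Polynomial.C a)).map (Rat.cast : ℚ → ℝ)).mulVec x =
              (a : ℝ) • x := by
            rw [Polynomial.aeval_C]
            funext j
            rw [Matrix.mulVec, dotProduct, Finset.sum_eq_single j]
            · simp [Matrix.algebraMap_matrix_apply]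
            · intro k _ hk
              simp [Matrix.algebraMap_matrix_apply, Ne.symm hk]
            · simp
          rw [h1]
          have h2 : ∑ j, L' i j * ((a : ℝ) • x) j = (a : ℝ) * ∑ j, L' i j * x j := by
            rw [Finset.mul_sum]
            refine Finset.sum_congr rfl fun j _ => ?_
            rw [Pi.smul_apply, smul_eq_mul]; ring
          rw [h2, hx i hi, mul_zero]
        | add Q R hQ hR =>
          intro x hx i hi
          have h1 : ((Polynomial.aeval A (Q + R)).map (Rat.cast : ℚ → ℝ)).mulVec x =
              ((Polynomial.aeval A Q).map (Rat.cast : ℚ → ℝ)).mulVec x +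
              ((Polynomial.aeval A R).map (Rat.cast : ℚ → ℝ)).mulVec x := by
            rw [map_add, ← Matrix.add_mulVec]
            congr 1
            ext i j
            simp [Matrix.map_apply]
          rw [h1]
          have h2 := hQ x hx i hi
          have h3 := hR x hx i hi
          simp only [Pi.add_apply, mul_add, Finset.sum_add_distrib]
          rw [h2, h3, add_zero]
        | monomial k a ih =>
          intro x hx i hi
          have h0 : (Polynomial.C a * Polynomial.X ^ (k + 1) : Polynomial ℚ) =
              Polynomial.X * (Polynomial.C a * Polynomial.X ^ k) := by ring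
          have h1 : Polynomial.aeval A (Polynomial.C a * Polynomial.X ^ (k + 1)) =
              A * Polynomial.aeval A (Polynomial.C a * Polynomial.X ^ k) := by
            rw [h0, map_mul (Polynomial.aeval A) Polynomial.X, Polynomial.aeval_X]
          have h2 : ((A * Polynomial.aeval A (Polynomial.C a * Polynomial.X ^ k)).map
              (Rat.cast : ℚ → ℝ)).mulVec x =
              (A.map (Rat.cast : ℚ → ℝ)).mulVec
                (((Polynomial.aeval A (Polynomial.C a * Polynomial.X ^ k)).map
                  (Rat.cast : ℚ → ℝ)).mulVec x) := by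
            rw [Matrix.mulVec_mulVec]
            congr 1
            ext i j
            rw [Matrix.map_apply, Matrix.mul_apply, Matrix.mul_apply]
            push_cast
            rfl
          rw [h1, h2]
          exact hA _ (ih x hx) i hi
      have hirr : Irreducible A.charpoly := by
        refine charpoly_irreducible hp A hAs fun Q hQ => ?_
        exact det_ne_zero_of_invariant (Matrix.of L') (hdet' L' hL') ν hν (hnu' L' hL') I hco _
          (hpol Q) hQ
      exact part_one hn L hL hb L' hL' I A hA hirr (Or.inl hco)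
  · intro L' hL' k w K hfin hK hw0 hwK hw
    obtain ⟨A, hirr, hA⟩ := exists_matrix_of_point (by omega) (Matrix.of L') (hdet' L' hL') ν hν
      (hnu' L' hL') K hK w hw0 hwK k hw
    refine part_one hn L hL hb L' hL' (Finset.univ.erase k) A hA hirr (Or.inl ?_)
    rw [Finset.card_erase_of_mem (Finset.mem_univ _), Finset.card_univ, Fintype.card_fin]
    have h1 : Nat.Coprime (n - 1) (n - 1 + 1) :=
      Nat.coprime_self_add_right.2 (Nat.coprime_one_right _)
    rwa [Nat.sub_add_cancel (by omega : 1 ≤ n)] at h1

end Pool.Agent.Results.MP_77d073_nt.InvariantIntersections
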