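import Mathlib
import Pool.Agent.K3h4.OL.Help

/-! # MP_77d073_nt: products bounded away from zero only near an algebraic line

Let `n ≥ 3`, let `L 1, ..., L n` be independent real linear forms and let all `L i` with `i ≠ k`
vanish at the nonzero vector `w`. The product `F = L 1 ... L n` is said to be bounded away from zero
near the line of `w` if it is so at the nonzero integer points of a conical neighbourhood of the
line. (For `n = 3`, `w = (1, α, β)` and `F = x (α x - y) (β x - z)` this is the question of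
Littlewood for `α, β`.)

1. Let `w` be an eigenvector of a rational matrix `A` with irreducible characteristic polynomial.
   Then `F` is bounded away from zero near the line of `w` if and only if `A` preserves all
   hyperplanes `L i = 0`, `i ≠ k`; and then all eigenvalues of `A` are real. The form `L k` is
   arbitrary.
2. Let the coordinates of `w` lie in a real number field of degree at most `n`. Then `F` is bounded
   away from zero near the line of `w` if and only if there is a rational matrix with irreducible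
   characteristic polynomial and real eigenvalues which preserves all hyperplanes `L i = 0`,
   `i ≠ k`.
3. Let `n` be prime and let `w` be an eigenvector of a rational matrix `A` which is not scalar. If
   `F` is bounded away from zero near the line of `w`, then `A` preserves all hyperplanes
   `L i = 0`, `i ≠ k`, and its characteristic polynomial is irreducible with only real roots. -/

set_option autoImplicit false

open Filter Topology

namespace Pool.Agent.Results.MP_77d073_nt.NearLine

variable {n : ℕ}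

/-- The product of the linear forms with the coefficients `L i` is bounded away from zero at the
nonzero integer points of some conical neighbourhood of the line on which all `L i` with `i ≠ k`
vanish. -/
def BoundedNear (L : Fin n → Fin n → ℝ) (k : Fin n) : Prop :=
  ∃ δ : ℝ, 0 < δ ∧ ∃ ν : ℝ, 0 < ν ∧ ∀ p : Fin n → ℤ, p ≠ 0 →
    (∀ i, i ≠ k → |∑ j : Fin n, L i j * (p j : ℝ)| ≤ δ * ∑ j : Fin n, |(p j : ℝ)|) →
    ν ≤ |∏ i : Fin n, ∑ j : Fin n, L i j * (p j : ℝ)|

/-- The rational matrix `B` maps the hyperplane on which the linear form with coefficients `f`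
vanishes to itself. -/
def Preserves (f : Fin n → ℝ) (B : Matrix (Fin n) (Fin n) ℚ) : Prop :=
  ∀ x : Fin n → ℝ, ∑ j, f j * x j = 0 →
    ∑ j, f j * ((B.map (Rat.cast : ℚ → ℝ)).mulVec x) j = 0

open Pool.Agent.K3h4.OL in
lemma bounded_iff (L : Fin n → Fin n → ℝ) (k : Fin n) :
    BoundedNear L k ↔ ∃ δ : ℝ, 0 < δ ∧ ∃ ν : ℝ, 0 < ν ∧
      Near (Matrix.of L) (Finset.univ.erase k) δ ν := by
  unfold BoundedNear Near
  constructor
  · rintro ⟨δ, hδ, ν, hν, h⟩
    exact ⟨δ, hδ, ν, hν, fun p hp h' => h p hp fun i hi =>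
      h' i (Finset.mem_erase.2 ⟨hi, Finset.mem_univ i⟩)⟩
  · rintro ⟨δ, hδ, ν, hν, h⟩
    exact ⟨δ, hδ, ν, hν, fun p hp h' => h p hp fun i hi => h' i (Finset.mem_erase.1 hi).1⟩

open Pool.Agent.K3h4.OC in
lemma pres_iff (L : Fin n → Fin n → ℝ) (i : Fin n) (A : Matrix (Fin n) (Fin n) ℚ) :
    Pres (Matrix.of L) {i} A ↔ Preserves (L i) A := by
  constructor
  · intro h x hx
    exact h x (fun i' hi' => by
      rw [Finset.mem_singleton] at hi'
      rw [hi']
      exact hx) i (Finset.mem_singleton_self i)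
  · intro h x hx i' hi'
    rw [Finset.mem_singleton] at hi'
    rw [hi']
    exact h x (hx i (Finset.mem_singleton_self i))

lemma card_erase' (k : Fin n) : (Finset.univ.erase k : Finset (Fin n)).card = n - 1 := by
  rw [Finset.card_erase_of_mem (Finset.mem_univ _), Finset.card_univ, Fintype.card_fin]

lemma coprime_erase (hn : 3 ≤ n) (k : Fin n) :
    Nat.Coprime (Finset.univ.erase k : Finset (Fin n)).card n := by
  rw [card_erase']
  have h1 : Nat.Coprime (n - 1) (n - 1 + 1) :=
    Nat.coprime_self_add_right.2 (Nat.coprime_one_right _)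
  rwa [Nat.sub_add_cancel (by omega : 1 ≤ n)] at h1

lemma ne_univ (k : Fin n) : (Finset.univ.erase k : Finset (Fin n)) ≠ Finset.univ := by
  intro h
  have h1 : k ∈ (Finset.univ.erase k : Finset (Fin n)) := by rw [h]; exact Finset.mem_univ k
  exact (Finset.mem_erase.1 h1).1 rfl

open Pool.Agent.K3h4.OC in
/-- the line is preserved if `w` is an eigenvector -/
lemma pres_line {L : Fin n → Fin n → ℝ} (hL : LinearIndependent ℝ L) (k : Fin n)
    (w : Fin n → ℝ) (hw0 : w ≠ 0) (hw : ∀ i, i ≠ k → ∑ j, L i j * w j = 0)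
    (A : Matrix (Fin n) (Fin n) ℚ) (θ : ℝ)
    (hA : (A.map (Rat.cast : ℚ → ℝ)).mulVec w = θ • w) :
    Pres (Matrix.of L) (Finset.univ.erase k) A := by
  classical
  have hdet := Pool.Agent.H905R2.Opp.det_ne hL
  have hinj : ∀ y : Fin n → ℝ, (Matrix.of L).mulVec y = 0 → y = 0 := fun y hy =>
    Matrix.eq_zero_of_mulVec_eq_zero hdet hy
  have hw' : ∀ i, i ≠ k → (Matrix.of L).mulVec w i = 0 := hw
  have hwi : (Matrix.of L).mulVec w k ≠ 0 := by
    intro h0
    apply hw0
    apply hinj
    funext i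
    by_cases hi : i = k
    · rw [hi]; exact h0
    · exact hw' i hi
  intro x hx i hi
  obtain ⟨c, rfl⟩ : ∃ c : ℝ, x = c • w := by
    refine ⟨(Matrix.of L).mulVec x k / (Matrix.of L).mulVec w k, ?_⟩
    rw [← sub_eq_zero]
    apply hinj
    funext i
    rw [Matrix.mulVec_sub, Matrix.mulVec_smul, Pi.sub_apply, Pi.smul_apply, smul_eq_mul,
      Pi.zero_apply]
    by_cases hi : i = k
    · rw [hi]; field_simp; ring
    · rw [hw' i hi, hx i (Finset.mem_erase.2 ⟨hi, Finset.mem_univ i⟩)]; ring
  rw [Matrix.mulVec_smul, hA, Matrix.mulVec_smul, Matrix.mulVec_smul, Pi.smul_apply,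
    Pi.smul_apply, hw' i (Finset.mem_erase.1 hi).1, smul_zero, smul_zero]

open Pool.Agent.K3h4.OC Pool.Agent.K3h4.OL in
/-- the first part, for a preserved line -/
lemma part_one (hn : 3 ≤ n) {L : Fin n → Fin n → ℝ} (hL : LinearIndependent ℝ L) (k : Fin n)
    (A : Matrix (Fin n) (Fin n) ℚ) (hirr : Irreducible A.charpoly)
    (hA : Pres (Matrix.of L) (Finset.univ.erase k) A) :
    (BoundedNear L k ↔ ∀ i, i ≠ k → Preserves (L i) A) ∧
    (BoundedNear L k → ∀ z : ℂ, Polynomial.aeval z A.charpoly = 0 → z.im = 0) := by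
  have hdet := Pool.Agent.H905R2.Opp.det_ne hL
  obtain ⟨h1, h2⟩ := near_iff hn A hirr (Matrix.of L) hdet (Finset.univ.erase k)
    (by rw [card_erase']; omega) hA (Or.inl (coprime_erase hn k))
  rw [← bounded_iff] at h1 h2
  refine ⟨⟨fun hb i hi => (pres_iff L i A).1 (h1.1 hb i
    (Or.inl (Finset.mem_erase.2 ⟨hi, Finset.mem_univ i⟩))), fun h => h1.2 fun i hi => ?_⟩,
    fun hb => (h2 hb).1⟩
  rcases hi with hi | hi
  · exact (pres_iff L i A).2 (h i (Finset.mem_erase.1 hi).1)
  · rw [card_erase'] at hi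
    omega

open Pool.Agent.K3h4.OL in
theorem result (n : ℕ) (hn : 3 ≤ n) (L : Fin n → Fin n → ℝ) (hL : LinearIndependent ℝ L)
    (k : Fin n) (w : Fin n → ℝ) (hw0 : w ≠ 0) (hw : ∀ i, i ≠ k → ∑ j, L i j * w j = 0) :
    (∀ (A : Matrix (Fin n) (Fin n) ℚ) (θ : ℝ), Irreducible A.charpoly →
      (A.map (Rat.cast : ℚ → ℝ)).mulVec w = θ • w →
      (BoundedNear L k ↔ ∀ i, i ≠ k → Preserves (L i) A) ∧
      (BoundedNear L k → ∀ z : ℂ, Polynomial.aeval z A.charpoly = 0 → z.im = 0)) ∧
    (∀ K : IntermediateField ℚ ℝ, FiniteDimensional ℚ K → Module.finrank ℚ K ≤ n →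
      (∀ j, w j ∈ K) →
      (BoundedNear L k ↔ ∃ A : Matrix (Fin n) (Fin n) ℚ, Irreducible A.charpoly ∧
        (∀ z : ℂ, Polynomial.aeval z A.charpoly = 0 → z.im = 0) ∧
        ∀ i, i ≠ k → Preserves (L i) A)) ∧
    (n.Prime → ∀ (A : Matrix (Fin n) (Fin n) ℚ) (θ : ℝ),
      (∀ a : ℚ, A ≠ a • (1 : Matrix (Fin n) (Fin n) ℚ)) →
      (A.map (Rat.cast : ℚ → ℝ)).mulVec w = θ • w → BoundedNear L k →
      Irreducible A.charpoly ∧ (∀ z : ℂ, Polynomial.aeval z A.charpoly = 0 → z.im = 0) ∧
        ∀ i, i ≠ k → Preserves (L i) A) := by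
  classical
  have hdet := Pool.Agent.H905R2.Opp.det_ne hL
  refine ⟨fun A θ hirr hA => part_one hn hL k A hirr (pres_line hL k w hw0 hw A θ hA), ?_, ?_⟩
  · intro K hfin hK hwK
    constructor
    · intro hb
      obtain ⟨δ, hδ, ν, hν, hnear⟩ := (bounded_iff L k).1 hb
      obtain ⟨A, hirr, -, hA⟩ := exists_matrix_of_point (by omega)
        (Matrix.of L) hdet δ ν hδ hν K hK w hw0 hwK k hnear hw
      obtain ⟨h1, h2⟩ := part_one hn hL k A hirr hA
      exact ⟨A, hirr, h2 hb, h1.1 hb⟩
    · rintro ⟨A, hirr, -, hA⟩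
      refine (part_one hn hL k A hirr ?_).1.2 hA
      intro x hx i hi
      exact hA i (Finset.mem_erase.1 hi).1 x (hx i hi)
  · intro hp A θ hAs hA hb
    have hP := pres_line hL k w hw0 hw A θ hA
    obtain ⟨δ, hδ, ν, hν, hnear⟩ := (bounded_iff L k).1 hb
    have hI0 : (Finset.univ.erase k : Finset (Fin n)).Nonempty := by
      rw [← Finset.card_pos, card_erase']
      omega
    have hirr := irreducible_of_prime hp hL hI0 (ne_univ k) hP hAs δ ν hδ hν hnear
    obtain ⟨h1, h2⟩ := part_one hn hL k A hirr hP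
    exact ⟨hirr, h2 hb, h1.1 hb⟩

end Pool.Agent.Results.MP_77d073_nt.NearLine
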