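import Mathlib
import Pool.Agent.K3h4.OL.Help

/-! # MP_77d073_nt: products bounded away from zero only near an intersection of the hyperplanes

Let `n ≥ 3`, let `L 1, ..., L n` be independent real linear forms, let `I` be a set of at most
`n - 2` indices and `W` the intersection of the hyperplanes `L i = 0`, `i ∈ I`. The product
`F = L 1 ... L n` is said to be bounded away from zero near `W` if it is so at the nonzero integer
points of a conical neighbourhood of `W`. This is much weaker than the hypothesis of the conjecture: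
nothing is assumed about the other integer points.

1. Let `W` be preserved by a rational matrix with irreducible characteristic polynomial, and let
   the number of elements of `I` be prime to `n` or the rational matrices preserving `W` commute.
   Then `F` is bounded away from zero near `W` if and only if Oppenheim's conclusion holds for `L`.
2. The same is true if `n` is prime, `I` is not empty and `W` is preserved by some rational matrix
   which is not scalar.
3. The same is true if `I` has one element `i` and `L i` is a multiple of a form with coefficients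
   in a real number field of degree at most `n`. -/

set_option autoImplicit false

open Filter Topology

namespace Pool.Agent.Results.MP_77d073_nt.NearSubspace

variable {n : ℕ}

/-- The product of the linear forms with the coefficients `L i` is bounded away from zero at the
nonzero integer points of some conical neighbourhood of the intersection of the hyperplanes
`L i = 0`, `i ∈ I`. -/
def BoundedNear (L : Fin n → Fin n → ℝ) (I : Finset (Fin n)) : Prop :=
  ∃ δ : ℝ, 0 < δ ∧ ∃ ν : ℝ, 0 < ν ∧ ∀ p : Fin n → ℤ, p ≠ 0 →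
    (∀ i ∈ I, |∑ j : Fin n, L i j * (p j : ℝ)| ≤ δ * ∑ j : Fin n, |(p j : ℝ)|) →
    ν ≤ |∏ i : Fin n, ∑ j : Fin n, L i j * (p j : ℝ)|

/-- Oppenheim's conclusion: there is an irreducible RS-matrix whose invariant planes are the
hyperplanes `L i = 0`. -/
def HasMatrix (L : Fin n → Fin n → ℝ) : Prop :=
  ∃ A : Matrix (Fin n) (Fin n) ℤ,
    A.det = 1 ∧
    Irreducible (A.charpoly.map (Int.castRingHom ℚ)) ∧
    (∀ z : ℂ, Polynomial.aeval z A.charpoly = 0 → z.im = 0) ∧
    ∀ i : Fin n, ∀ x : Fin n → ℝ, ∑ j, L i j * x j = 0 →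
      ∑ j, L i j * ((A.map (Int.cast : ℤ → ℝ)).mulVec x) j = 0

/-- The rational matrix `B` maps the intersection of the hyperplanes `L i = 0`, `i ∈ I`, to
itself. -/
def Preserves (L : Fin n → Fin n → ℝ) (I : Finset (Fin n)) (B : Matrix (Fin n) (Fin n) ℚ) : Prop :=
  ∀ x : Fin n → ℝ, (∀ i ∈ I, ∑ j, L i j * x j = 0) →
    ∀ i ∈ I, ∑ j, L i j * ((B.map (Rat.cast : ℚ → ℝ)).mulVec x) j = 0

/-- Oppenheim's conclusion implies the lower bound -/
lemma near_of_matrix (hn : 3 ≤ n) {L : Fin n → Fin n → ℝ} (hL : LinearIndependent ℝ L)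
    (h : HasMatrix L) (I : Finset (Fin n)) : BoundedNear L I := by
  obtain ⟨A, -, hirr, -, hA⟩ := h
  obtain ⟨ν, hν, hF⟩ := Pool.Agent.K3h4.OL.bounded_of_matrix hn hL A hirr hA
  exact ⟨1, one_pos, ν, hν, fun p hp _ => hF p hp⟩

/-- the other direction -/
lemma matrix_of_near (hn : 3 ≤ n) {L : Fin n → Fin n → ℝ} (hL : LinearIndependent ℝ L)
    (I : Finset (Fin n)) (A : Matrix (Fin n) (Fin n) ℚ) (hI : I.card + 2 ≤ n)
    (hA : Preserves L I A) (hirr : Irreducible A.charpoly)
    (hcond : Nat.Coprime I.card n ∨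
      ∀ B C : Matrix (Fin n) (Fin n) ℚ, Preserves L I B → Preserves L I C → B * C = C * B)
    (hb : BoundedNear L I) : HasMatrix L := by
  have hdet := Pool.Agent.H905R2.Opp.det_ne hL
  obtain ⟨-, h2⟩ := Pool.Agent.K3h4.OL.near_iff hn A hirr (Matrix.of L) hdet I (by omega) hA hcond
  obtain ⟨hP, ν, hν, hF⟩ := (h2 hb).2 hI
  exact Pool.Agent.H905R2.Opp.opp_of_propInt (by omega) hL ⟨ν, hν, hF⟩ hP

theorem result (n : ℕ) (hn : 3 ≤ n) (L : Fin n → Fin n → ℝ) (hL : LinearIndependent ℝ L) :
    (∀ (I : Finset (Fin n)) (A : Matrix (Fin n) (Fin n) ℚ), I.card + 2 ≤ n →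
      Preserves L I A → Irreducible A.charpoly →
      (Nat.Coprime I.card n ∨
        ∀ B C : Matrix (Fin n) (Fin n) ℚ, Preserves L I B → Preserves L I C → B * C = C * B) →
      (BoundedNear L I ↔ HasMatrix L)) ∧
    (n.Prime → ∀ (I : Finset (Fin n)) (A : Matrix (Fin n) (Fin n) ℚ), I.Nonempty →
      I.card + 2 ≤ n → Preserves L I A → (∀ a : ℚ, A ≠ a • (1 : Matrix (Fin n) (Fin n) ℚ)) →
      (BoundedNear L I ↔ HasMatrix L)) ∧
    (∀ (i : Fin n) (s : ℝ) (K : IntermediateField ℚ ℝ), FiniteDimensional ℚ K →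
      Module.finrank ℚ K ≤ n → s ≠ 0 → (∀ j, s * L i j ∈ K) →
      (BoundedNear L {i} ↔ HasMatrix L)) := by
  classical
  have hdet := Pool.Agent.H905R2.Opp.det_ne hL
  refine ⟨fun I A hI hA hirr hcond => ⟨matrix_of_near hn hL I A hI hA hirr hcond,
    fun h => near_of_matrix hn hL h I⟩, ?_, ?_⟩
  · intro hp I A hI0 hI hA hAs
    refine ⟨fun hb => ?_, fun h => near_of_matrix hn hL h I⟩
    have hI1 : I ≠ Finset.univ := by
      rintro rfl
      rw [Finset.card_univ, Fintype.card_fin] at hI
      omega
    have hb' := hb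
    obtain ⟨δ, hδ, ν, hν, hnear⟩ := hb
    exact matrix_of_near hn hL I A hI hA
      (Pool.Agent.K3h4.OL.irreducible_of_prime hp hL hI0 hI1 hA hAs δ ν hδ hν hnear)
      (Or.inl (Pool.Agent.K3h4.OL.coprime_of_prime hp hI0 hI1)) hb'
  · intro i s K hfin hK hs hsK
    refine ⟨fun hb => ?_, fun h => near_of_matrix hn hL h {i}⟩
    have hb' := hb
    obtain ⟨δ, hδ, ν, hν, hnear⟩ := hb
    obtain ⟨A, hirr, hA⟩ := Pool.Agent.K3h4.OL.exists_matrix_of_form (by omega) (Matrix.of L) hdet
      δ ν hδ hν K hK i s hs hsK hnear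
    exact matrix_of_near hn hL {i} A (by rw [Finset.card_singleton]; omega) hA hirr
      (Or.inl (by rw [Finset.card_singleton]; exact Nat.coprime_one_left _)) hb'

end Pool.Agent.Results.MP_77d073_nt.NearSubspace
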